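import Mathlib
import Pool.Agent.Helper22.RKI.St

/-!
# Project RK, part (i), module WT
-/

set_option autoImplicit false

namespace Pool.Agent.Helper32.RKI

open Pool.Agent.Helper22.RKI Pool.Agent.Helper43.RK

/-- powers of `f` act by powers of two -/
theorem conj_pow_two {G : Type} [Group G] (f t : G) (h : f⁻¹ * t * f = t ^ 2) (M : ℕ) :
    (f ^ M)⁻¹ * t * f ^ M = t ^ (2 ^ M) := by
  induction M with
  | zero => simp
  | succ M ih =>
    have h1 : (f ^ (M + 1))⁻¹ * t * f ^ (M + 1) = f⁻¹ * ((f ^ M)⁻¹ * t * f ^ M) * f := by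
      rw [pow_succ]; group
    have h2 : f⁻¹ * t ^ (2 ^ M) * f = (f⁻¹ * t * f) ^ (2 ^ M) := by
      have := (map_pow (MulAut.conj f⁻¹) t (2 ^ M))
      simpa [MulAut.conj_apply] using this
    rw [h1, ih, h2, h, ← pow_mul, pow_succ, mul_comm]

/-- the relator times `t` -/
theorem al_eq {G : Type} [Group G] (a t Z : G) (m : ℤ) (hZ2 : Z * Z = 1) (hZt : Commute Z t)
    (hR : a * t⁻¹ * a = t ^ (m - 1) * a * Z * t ^ (-m)) :
    cj a t (1 - m) = a * cj a t 1 * Z := by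
  have h1 : a * cj a t 1 * Z = (a * t⁻¹ * a) * (t * Z) := by
    unfold cj
    simp only [zpow_neg, zpow_one, mul_assoc]
  have h2 : t ^ (-m) * (t * Z) = Z * t ^ (1 - m) := by
    have h3 : t ^ (-m) * t = t ^ (1 - m) := by
      rw [← zpow_add_one]; congr 1; ring
    rw [← mul_assoc, h3]
    exact ((hZt.zpow_right (1 - m)).eq).symm
  rw [h1, hR, mul_assoc _ (t ^ (-m)), h2]
  have h4 : t ^ (m - 1) * a * Z * (Z * t ^ (1 - m)) = t ^ (m - 1) * a * (Z * Z) * t ^ (1 - m) := by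
    group
  rw [h4, hZ2, mul_one]
  unfold cj
  congr 3
  ring

/-- the conjugate of a power -/
theorem conj_pow_k {G : Type} [Group G] (g a : G) (k β : ℕ) (h : a⁻¹ * g * a = g ^ k) :
    a⁻¹ * g ^ β * a = g ^ (k * β) := by
  have h2 : a⁻¹ * g ^ β * a = (a⁻¹ * g * a) ^ β := by
    have := (map_pow (MulAut.conj a⁻¹) g β)
    simpa [MulAut.conj_apply] using this
  rw [h2, h, ← pow_mul]

theorem hWT : StWT := by
  intro hN n k β hP hgcd G _ g a t hB hZ2 hZt hZa haa hR ht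
  obtain ⟨Z, hZ⟩ : ∃ Z : G, Z = (g ^ 4) ^ (1 - (k : ℤ)) := ⟨_, rfl⟩
  unfold Rel0 at hR
  rw [← hZ] at hZ2 hZt hZa haa hR
  have hal := al_eq a t Z ((2 : ℤ) ^ n) hZ2 hZt hR
  have hw : (g ^ β * a)⁻¹ * t * (g ^ β * a) = t⁻¹ := by
    have h1 : (g ^ β * a)⁻¹ * t * (g ^ β * a) = a⁻¹ * ((g ^ β)⁻¹ * t * g ^ β) * a := by group
    have h2 : a⁻¹ * (a * cj a t 1 * Z * t⁻¹) * a = t⁻¹ * a * (t * Z) * t⁻¹ * a := by
      unfold cj
      simp only [zpow_neg, zpow_one]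
      group
    have h3 : t⁻¹ * a * (Z * t) * t⁻¹ * a = t⁻¹ * a * (Z * a) := by group
    have h4 : t⁻¹ * a * (a * Z) = t⁻¹ * (a * a) * Z := by group
    rw [h1, hB.r3, hal, h2, ← hZt.eq, h3, hZa.eq, h4, haa, mul_assoc, hZ2, mul_one]
  have hw2 : (g ^ β * a) * (g ^ β * a) = Z * g ^ (β * (k + 1)) := by
    have h1 : (g ^ β * a) * (g ^ β * a) = g ^ β * (a * a) * (a⁻¹ * g ^ β * a) := by group
    have hZg : Commute (g ^ β) Z := by
      rw [hZ]
      exact (((Commute.refl g).pow_left β).pow_right 4).zpow_right _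
    rw [h1, conj_pow_k g a k β hB.r1, haa, hZg.eq, mul_assoc, ← pow_add]
    congr 2
    ring
  have hct : Commute (g ^ (β * (k + 1))) t := by
    have h1 : g ^ (β * (k + 1)) = Z⁻¹ * ((g ^ β * a) * (g ^ β * a)) := by
      rw [hw2]; group
    have h2 : Commute ((g ^ β * a) * (g ^ β * a)) t := by
      have h3 : ((g ^ β * a) * (g ^ β * a))⁻¹ * t * ((g ^ β * a) * (g ^ β * a)) = t := by
        have h5 : ((g ^ β * a) * (g ^ β * a))⁻¹ * t * ((g ^ β * a) * (g ^ β * a)) =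
            (g ^ β * a)⁻¹ * ((g ^ β * a)⁻¹ * t * (g ^ β * a)) * (g ^ β * a) := by group
        have h6 : (g ^ β * a)⁻¹ * t⁻¹ * (g ^ β * a) = ((g ^ β * a)⁻¹ * t * (g ^ β * a))⁻¹ := by group
        rw [h5, hw, h6, hw, inv_inv]
      have h4 : t * ((g ^ β * a) * (g ^ β * a)) = ((g ^ β * a) * (g ^ β * a)) *
          (((g ^ β * a) * (g ^ β * a))⁻¹ * t * ((g ^ β * a) * (g ^ β * a))) := by group
      rw [h3] at h4
      exact h4.symm
    rw [h1]
    exact (hZt.inv_left).mul_left h2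
  have hM : g ^ (β * (k + 1)) = (g ^ 4) ^ (β * ((k + 1) / 4)) := by
    rw [← pow_mul]
    congr 1
    have h8 := hP.k8
    have h9 : k + 1 = 4 * ((k + 1) / 4) := by omega
    calc β * (k + 1) = β * (4 * ((k + 1) / 4)) := by rw [← h9]
      _ = 4 * (β * ((k + 1) / 4)) := by ring
  have h1 := conj_pow_two (g ^ 4) t hB.r2 (β * ((k + 1) / 4))
  rw [← hM] at h1
  have h2 : (g ^ (β * (k + 1)))⁻¹ * t * g ^ (β * (k + 1)) = t := by
    rw [mul_assoc, ← hct.eq]; group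
  rw [h2] at h1
  have h3 : t ^ (2 ^ (β * ((k + 1) / 4)) - 1) = 1 := by
    have h4 : t ^ (2 ^ (β * ((k + 1) / 4)) - 1) * t = 1 * t := by
      rw [← pow_succ, one_mul, Nat.sub_add_cancel Nat.one_le_two_pow]
      exact h1.symm
    exact mul_right_cancel h4
  exact orderOf_dvd_iff_pow_eq_one.mp (hN n k β hP hgcd (orderOf t)
    (orderOf_dvd_of_pow_eq_one h3) (orderOf_dvd_of_pow_eq_one ht))

end Pool.Agent.Helper32.RKI
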